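import Pool.Agent.N65.GP.Defs2

set_option autoImplicit false

/-!
# Continuation in `c` for one `m`
-/

namespace Pool.Agent.N438.GP2

open Complex Filter Topology Pool.Agent.N65.GP

lemma countable_exp (z : ℂ) : {w : ℂ | Complex.exp w = z}.Countable := by
  by_cases h : ∃ w₀, Complex.exp w₀ = z
  · obtain ⟨w₀, h0⟩ := h
    apply (Set.countable_range (fun n : ℤ => w₀ + n * (2 * Real.pi * I))).mono
    intro w hw
    have h1 : Complex.exp w = Complex.exp w₀ := by rw [h0]; exact hw
    obtain ⟨n, hn⟩ := Complex.exp_eq_exp_iff_exists_int.1 h1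
    exact ⟨n, hn.symm⟩
  · have h1 : {w : ℂ | Complex.exp w = z} = ∅ := by
      ext w
      simp only [Set.mem_ofPred_eq, Set.mem_empty_iff_false, iff_false]
      exact fun hw => h ⟨w, hw⟩
    rw [h1]
    exact Set.countable_empty

/-- a map of the plane onto the half plane `Re > log R` -/
noncomputable def th (R : ℝ) (z : ℂ) : ℂ := ((Real.log R + Real.exp z.re : ℝ) : ℂ) + (z.im : ℂ) * I

lemma th_re (R : ℝ) (z : ℂ) : (th R z).re = Real.log R + Real.exp z.re := by
  unfold th
  rw [Complex.add_re, Complex.ofReal_re, Complex.re_ofReal_mul, Complex.I_re, mul_zero, add_zero]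

lemma th_im (R : ℝ) (z : ℂ) : (th R z).im = z.im := by
  simp [th]

lemma th_inj (R : ℝ) : Function.Injective (th R) := by
  intro z w h
  have h1 := congrArg Complex.re h
  have h2 := congrArg Complex.im h
  rw [th_re, th_re] at h1
  rw [th_im, th_im] at h2
  exact Complex.ext (Real.exp_injective (by linarith)) h2

lemma th_cont (R : ℝ) : Continuous (th R) := by
  unfold th
  fun_prop

lemma preconn {R : ℝ} (hR : 0 < R) {Z : Set ℂ} (hZ : Z.Countable) :
    IsPreconnected ({c : ℂ | R < ‖c‖} \ Z) := by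
  have hcount : {z : ℂ | Complex.exp (th R z) ∈ Z}.Countable := by
    have h1 : {z : ℂ | Complex.exp (th R z) ∈ Z} = ⋃ c ∈ Z, (th R) ⁻¹' {w | Complex.exp w = c} := by
      ext z
      simp
    rw [h1]
    exact hZ.biUnion fun c _ => (countable_exp c).preimage (th_inj R)
  have h1 := (hcount.isConnected_compl_of_one_lt_rank (E := ℂ)
    (by rw [Complex.rank_real_complex]; exact_mod_cast (by norm_num : (1 : ℕ) < 2))).isPreconnected
  have h2 : {c : ℂ | R < ‖c‖} \ Z =
      (fun z => Complex.exp (th R z)) '' {z : ℂ | Complex.exp (th R z) ∈ Z}ᶜ := by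
    ext c
    constructor
    · rintro ⟨hc, hcZ⟩
      have hc' : R < ‖c‖ := hc
      have h0 : c ≠ 0 := norm_pos_iff.1 (hR.trans hc')
      have h3 : 0 < Real.log ‖c‖ - Real.log R := by
        have := Real.log_lt_log hR hc'
        linarith
      have h4 : Complex.exp (th R ⟨Real.log (Real.log ‖c‖ - Real.log R), (Complex.log c).im⟩) = c := by
        have h5 : th R ⟨Real.log (Real.log ‖c‖ - Real.log R), (Complex.log c).im⟩ = Complex.log c := by
          apply Complex.ext
          · rw [th_re, Complex.log_re]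
            simp only [Real.exp_log h3]
            ring
          · rw [th_im]
        rw [h5, Complex.exp_log h0]
      refine ⟨⟨Real.log (Real.log ‖c‖ - Real.log R), (Complex.log c).im⟩, ?_, h4⟩
      simp only [Set.mem_compl_iff, Set.mem_ofPred_eq]
      rw [h4]
      exact hcZ
    · rintro ⟨z, hz, rfl⟩
      refine ⟨?_, hz⟩
      have h3 : R < ‖Complex.exp (th R z)‖ := by
        rw [Complex.norm_exp, th_re, Real.exp_add, Real.exp_log hR]
        have h4 : 1 < Real.exp (Real.exp z.re) := Real.one_lt_exp_iff.2 (Real.exp_pos _)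
        nlinarith
      exact h3
  rw [h2]
  exact h1.image _ (Complex.continuous_exp.comp (th_cont R)).continuousOn

theorem t_SG : S_SG := by
  intro k C R b m hm hx H hH c₀ ε β v τ hε hball
  have hR := b.pos
  have hopen : IsOpen {c : ℂ | R < ‖c‖} := isOpen_lt continuous_const continuous_norm
  -- the zeros
  have hZfin : (Set.range fun i => b.xb i m).Finite := Set.finite_range _
  have hFZ : ∀ c, C.F c m ≠ 0 ↔ c ∉ Set.range fun i => b.xb i m := by
    intro c
    rw [ne_eq, b.rootX m hm c, Set.mem_range]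
    constructor
    · rintro h ⟨i, hi⟩
      exact h ⟨i, hi.symm⟩
    · rintro h ⟨i, hi⟩
      exact h ⟨i, hi.symm⟩
  have hyne : ∀ c, R < ‖c‖ → C.F c m ≠ 0 → ∀ i, b.yb i c ≠ m := by
    intro c hc hF i hi
    exact hF ((b.rootY c hc m).2 ⟨i, hi.symm⟩)
  have hana : ∀ i c, R < ‖c‖ → AnalyticAt ℂ (b.yb i) c := fun i c hc =>
    (b.diffY i).analyticAt (hopen.mem_nhds hc)
  set E : ℂ → ℝ := fun c => (H c).im - (∑ i, β i * Real.log ‖b.yb i c - m‖ +
    ∑ i, v i * Real.log ‖b.xb i m - c‖ + τ) with hE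
  have hEan : AnalyticOnNhd ℝ E ({c : ℂ | R < ‖c‖} \ Set.range fun i => b.xb i m) := by
    rintro c ⟨hc, hcZ⟩
    have hc' : R < ‖c‖ := hc
    have hF : C.F c m ≠ 0 := (hFZ c).2 hcZ
    have h1 : AnalyticAt ℝ (fun c => (H c).im) c :=
      HarmonicAt.analyticAt (AnalyticAt.harmonicAt_im (hH.analyticAt (hopen.mem_nhds hc')))
    have h2 : ∀ i, AnalyticAt ℝ (fun c => Real.log ‖b.yb i c - m‖) c := fun i =>
      HarmonicAt.analyticAt (AnalyticAt.harmonicAt_log_norm ((hana i c hc').sub analyticAt_const)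
        (sub_ne_zero.2 (hyne c hc' hF i)))
    have h3 : ∀ i, AnalyticAt ℝ (fun c => Real.log ‖b.xb i m - c‖) c := fun i =>
      HarmonicAt.analyticAt (AnalyticAt.harmonicAt_log_norm (analyticAt_const.sub analyticAt_id)
        (sub_ne_zero.2 fun h => hcZ ⟨i, h⟩))
    have h4 : AnalyticAt ℝ (fun c => ∑ i, β i * Real.log ‖b.yb i c - m‖) c :=
      Finset.analyticAt_fun_sum _ fun i _ => analyticAt_const.mul (h2 i)
    have h5 : AnalyticAt ℝ (fun c => ∑ i, v i * Real.log ‖b.xb i m - c‖) c :=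
      Finset.analyticAt_fun_sum _ fun i _ => analyticAt_const.mul (h3 i)
    exact h1.sub ((h4.add h5).add analyticAt_const)
  have hc₀ := hball c₀ (Metric.mem_ball_self hε)
  have hE0 : Set.EqOn E 0 ({c : ℂ | R < ‖c‖} \ Set.range fun i => b.xb i m) := by
    refine hEan.eqOn_zero_of_preconnected_of_eventuallyEq_zero (preconn hR hZfin.countable)
      (z₀ := c₀) ⟨hc₀.1, (hFZ c₀).1 hc₀.2.1⟩ ?_
    filter_upwards [Metric.ball_mem_nhds c₀ hε] with c hc
    simp only [hE, Pi.zero_apply]
    rw [(hball c hc).2.2]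
    ring
  have hEc : ∀ c, R < ‖c‖ → C.F c m ≠ 0 → (H c).im = ∑ i, β i * Real.log ‖b.yb i c - m‖ +
      ∑ i, v i * Real.log ‖b.xb i m - c‖ + τ := by
    intro c hc hF
    have h1 : E c = 0 := hE0 ⟨hc, (hFZ c).1 hF⟩
    simp only [hE] at h1
    linarith
  have hv : ∀ j, v j = - β j := by
    classical
    intro j
    by_contra hne
    have hw : β j + v j ≠ 0 := fun h => hne (by linarith)
    set cj := b.xb j m with hcj
    have hcjR : R < ‖cj‖ := hx j
    have hyj : b.yb j cj = m := b.invY j m hm (hx j)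
    have hd : HasDerivAt (b.yb j) (deriv (b.yb j) cj) cj := (hana j cj hcjR).differentiableAt.hasDerivAt
    have hsl := hasDerivAt_iff_tendsto_slope.1 hd
    have hsl2 : Tendsto (fun c => Real.log ‖slope (b.yb j) cj c‖) (𝓝[≠] cj)
        (𝓝 (Real.log ‖deriv (b.yb j) cj‖)) :=
      ((Real.continuousAt_log (norm_ne_zero_iff.2 (b.derivY j cj hcjR))).tendsto).comp hsl.norm
    have hHc : Tendsto (fun c => (H c).im) (𝓝[≠] cj) (𝓝 (H cj).im) :=
      ((Complex.continuous_im.continuousAt).comp
        (hH.differentiableAt (hopen.mem_nhds hcjR)).continuousAt).tendsto.mono_left nhdsWithin_le_nhds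
    have h1 : ∀ i, i ≠ j → Tendsto (fun c => β i * Real.log ‖b.yb i c - m‖) (𝓝[≠] cj)
        (𝓝 (β i * Real.log ‖b.yb i cj - m‖)) := by
      intro i hij
      have h2 : b.yb i cj - m ≠ 0 := by
        rw [← hyj]
        exact sub_ne_zero.2 fun h => hij (b.injY cj hcjR h)
      have h3 : ContinuousAt (fun c => ‖b.yb i c - m‖) cj :=
        ((hana i cj hcjR).continuousAt.sub continuousAt_const).norm
      have h4 : ContinuousAt (fun c => Real.log ‖b.yb i c - m‖) cj :=
        h3.log (norm_ne_zero_iff.2 h2)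
      exact (h4.tendsto.mono_left nhdsWithin_le_nhds).const_mul _
    have h2 : ∀ i, i ≠ j → Tendsto (fun c => v i * Real.log ‖b.xb i m - c‖) (𝓝[≠] cj)
        (𝓝 (v i * Real.log ‖b.xb i m - cj‖)) := by
      intro i hij
      have h2 : b.xb i m - cj ≠ 0 := sub_ne_zero.2 fun h => hij (b.injX m hm h)
      have h3 : ContinuousAt (fun c => ‖b.xb i m - c‖) cj :=
        (continuousAt_const.sub continuousAt_id).norm
      have h4 : ContinuousAt (fun c => Real.log ‖b.xb i m - c‖) cj :=
        h3.log (norm_ne_zero_iff.2 h2)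
      exact (h4.tendsto.mono_left nhdsWithin_le_nhds).const_mul _
    have h3 := tendsto_finsetSum (Finset.univ.erase j) fun i hi => h1 i (Finset.ne_of_mem_erase hi)
    have h4 := tendsto_finsetSum (Finset.univ.erase j) fun i hi => h2 i (Finset.ne_of_mem_erase hi)
    have h5 := ((((hHc.sub h3).sub h4).sub (hsl2.const_mul (β j))).sub
      (tendsto_const_nhds (x := τ))).const_mul (β j + v j)⁻¹
    have h6 : Tendsto (fun c => Real.log ‖c - cj‖) (𝓝[≠] cj) atBot := by
      refine Real.tendsto_log_nhdsNE_zero.comp ?_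
      refine tendsto_nhdsWithin_iff.2 ⟨?_, ?_⟩
      · have h7 : ContinuousAt (fun c => ‖c - cj‖) cj := (continuousAt_id.sub continuousAt_const).norm
        have h8 := h7.tendsto
        simp only [sub_self, norm_zero] at h8
        exact h8.mono_left nhdsWithin_le_nhds
      · filter_upwards [self_mem_nhdsWithin] with c hc
        exact norm_ne_zero_iff.2 (sub_ne_zero.2 hc)
    refine not_tendsto_nhds_of_tendsto_atBot h6 _ (h5.congr' ?_)
    have h9 : ∀ᶠ c in 𝓝[≠] cj, R < ‖c‖ := nhdsWithin_le_nhds (hopen.mem_nhds hcjR)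
    have h10 : ∀ᶠ c in 𝓝[≠] cj, c ∉ (Set.range fun i => b.xb i m) \ {cj} :=
      nhdsWithin_le_nhds ((hZfin.subset Set.sdiff_subset).isClosed.isOpen_compl.mem_nhds (by simp))
    filter_upwards [self_mem_nhdsWithin, h9, h10] with c hc hcR hcZ
    have hc' : c ≠ cj := hc
    have hF : C.F c m ≠ 0 := (hFZ c).2 fun h => hcZ ⟨h, hc'⟩
    have h11 := hEc c hcR hF
    rw [← Finset.add_sum_erase Finset.univ _ (Finset.mem_univ j),
      ← Finset.add_sum_erase Finset.univ (fun i => v i * Real.log ‖b.xb i m - c‖)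
        (Finset.mem_univ j)] at h11
    have h12 : Real.log ‖slope (b.yb j) cj c‖ = Real.log ‖b.yb j c - m‖ - Real.log ‖c - cj‖ := by
      rw [slope_def_field, hyj, norm_div, Real.log_div
        (norm_ne_zero_iff.2 (sub_ne_zero.2 (hyne c hcR hF j)))
        (norm_ne_zero_iff.2 (sub_ne_zero.2 hc'))]
    rw [h12, inv_mul_eq_iff_eq_mul₀ hw]
    have h13 : ‖b.xb j m - c‖ = ‖c - cj‖ := norm_sub_rev _ _
    rw [h13] at h11
    rw [h11]
    ring
  refine ⟨hv, fun c hc hF => ?_⟩
  rw [hEc c hc hF]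
  congr 1
  rw [← Finset.sum_add_distrib]
  refine Finset.sum_congr rfl fun i _ => ?_
  rw [hv i]
  ring

end Pool.Agent.N438.GP2
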